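import Pool.Agent.Helper18.TR.St

/-! Module CR: Chinese remainder theorem for boxes. -/

namespace Pool.Agent.Helper18.TR

open Finset

theorem cr_vert {s : ℕ} {q : ℤ} {h h' : Fin s → ℤ} {d d' : ℤ} (hh : ∀ i, q ∣ h' i - h i)
    (hd : q ∣ d' - d) (ω : Finset (Fin s)) : q ∣ vert h' d' ω - vert h d ω := by
  have : vert h' d' ω - vert h d ω = (d' - d) + ∑ i ∈ ω, (h' i - h i) := by
    simp only [vert, Finset.sum_sub_distrib]; ring
  rw [this]
  exact dvd_add hd (Finset.dvd_sum fun i _ => hh i)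

theorem cr_hit_imp {s W b : ℕ} {S : Finset (Finset (Fin s))} {p q : ℕ} (hpq : p ∣ q)
    {x y : (Fin s → ℤ) × ℤ} (h1 : ∀ i, (q : ℤ) ∣ x.1 i - y.1 i) (h2 : (q : ℤ) ∣ x.2 - y.2)
    (h : hit W b S p y) : hit W b S p x := by
  obtain ⟨ω, hω, hd⟩ := h
  refine ⟨ω, hω, ?_⟩
  have h3 : (p : ℤ) ∣ vert x.1 x.2 ω - vert y.1 y.2 ω :=
    (Int.natCast_dvd_natCast.2 hpq).trans (cr_vert h1 h2 ω)
  have h4 := dvd_add hd (h3.mul_left (W : ℤ))
  have h5 : (W : ℤ) * vert y.1 y.2 ω + b + W * (vert x.1 x.2 ω - vert y.1 y.2 ω) =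
    W * vert x.1 x.2 ω + b := by ring
  rwa [h5] at h4

theorem cr_hit {s W b : ℕ} {S : Finset (Finset (Fin s))} {p q : ℕ} (hpq : p ∣ q)
    {x y : (Fin s → ℤ) × ℤ} (h1 : ∀ i, (q : ℤ) ∣ x.1 i - y.1 i) (h2 : (q : ℤ) ∣ x.2 - y.2) :
    hit W b S p x ↔ hit W b S p y :=
  ⟨cr_hit_imp hpq (fun i => by have := h1 i; rwa [← dvd_neg, neg_sub] at this)
    (by rwa [← dvd_neg, neg_sub] at h2), cr_hit_imp hpq h1 h2⟩

/-- reduction modulo `q` -/
def cr_mod {s : ℕ} (q : ℕ) (x : (Fin s → ℤ) × ℤ) : (Fin s → ℤ) × ℤ :=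
  (fun i => x.1 i % q, x.2 % q)

theorem cr_mem_box {s q : ℕ} {x : (Fin s → ℤ) × ℤ} :
    x ∈ box s q ↔ (∀ i, 0 ≤ x.1 i ∧ x.1 i < q) ∧ 0 ≤ x.2 ∧ x.2 < q := by
  simp [box, Fintype.mem_piFinset]

theorem cr_mod_mem {s q : ℕ} (hq : 0 < q) (x : (Fin s → ℤ) × ℤ) : cr_mod q x ∈ box s q := by
  have hq' : (0 : ℤ) < q := by exact_mod_cast hq
  rw [cr_mem_box]
  exact ⟨fun i => ⟨Int.emod_nonneg _ hq'.ne', Int.emod_lt_of_pos _ hq'⟩,
    Int.emod_nonneg _ hq'.ne', Int.emod_lt_of_pos _ hq'⟩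

theorem cr_mod_dvd {q : ℕ} (a : ℤ) : (q : ℤ) ∣ a % q - a := by
  rw [← dvd_neg, neg_sub]; exact Int.dvd_self_sub_emod

theorem cr_hit_mod {s W b : ℕ} {S : Finset (Finset (Fin s))} {p q : ℕ} (hpq : p ∣ q)
    (x : (Fin s → ℤ) × ℤ) : hit W b S p (cr_mod q x) ↔ hit W b S p x :=
  cr_hit hpq (fun _ => cr_mod_dvd _) (cr_mod_dvd _)

theorem cr_uniq {m n : ℕ} (hmn : Nat.Coprime m n) {a b : ℤ} (ha : 0 ≤ a ∧ a < (m * n : ℕ))
    (hb : 0 ≤ b ∧ b < (m * n : ℕ)) (h1 : a % m = b % m) (h2 : a % n = b % n) : a = b := by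
  have h3 : (m : ℤ) ∣ b - a := Int.ModEq.dvd h1
  have h4 : (n : ℤ) ∣ b - a := Int.ModEq.dvd h2
  have h5 : (m : ℤ) * n ∣ b - a := IsCoprime.mul_dvd (Nat.isCoprime_iff_coprime.2 hmn) h3 h4
  have h6 : a ≡ b [ZMOD (m * n)] := (Int.modEq_iff_dvd).2 h5
  have h7 : a % (m * n : ℤ) = b % (m * n : ℤ) := h6
  push_cast at ha hb
  rwa [Int.emod_eq_of_lt ha.1 ha.2, Int.emod_eq_of_lt hb.1 hb.2] at h7

theorem cr_exist {m n : ℕ} (hmn : Nat.Coprime m n) (hm : 0 < m) (hn : 0 < n) {a c : ℤ}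
    (ha : 0 ≤ a ∧ a < m) (hc : 0 ≤ c ∧ c < n) :
    ∃ x : ℤ, (0 ≤ x ∧ x < (m * n : ℕ)) ∧ x % m = a ∧ x % n = c := by
  obtain ⟨u, v, huv⟩ := Nat.isCoprime_iff_coprime.2 hmn
  have hp : (0 : ℤ) < (m * n : ℕ) := by exact_mod_cast Nat.mul_pos hm hn
  refine ⟨(a * (v * n) + c * (u * m)) % (m * n : ℕ), ⟨Int.emod_nonneg _ hp.ne',
    Int.emod_lt_of_pos _ hp⟩, ?_, ?_⟩
  · rw [Int.emod_emod_of_dvd _ (by push_cast; exact dvd_mul_right _ _)]
    have : a * (v * n) + c * (u * m) = a + m * ((c - a) * u) := by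
      have : v * (n : ℤ) = 1 - u * m := by linarith
      rw [this]; ring
    rw [this, Int.add_mul_emod_self_left, Int.emod_eq_of_lt ha.1 ha.2]
  · rw [Int.emod_emod_of_dvd _ (by push_cast; exact dvd_mul_left _ _)]
    have : a * (v * n) + c * (u * m) = c + n * ((a - c) * v) := by
      have : u * (m : ℤ) = 1 - v * n := by linarith
      rw [this]; ring
    rw [this, Int.add_mul_emod_self_left, Int.emod_eq_of_lt hc.1 hc.2]

theorem cr_two {s m n : ℕ} (hmn : Nat.Coprime m n) (hm : 0 < m) (hn : 0 < n)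
    (P R : (Fin s → ℤ) × ℤ → Prop) [DecidablePred P] [DecidablePred R]
    (hP : ∀ x, P (cr_mod m x) ↔ P x) (hR : ∀ x, R (cr_mod n x) ↔ R x) :
    ((box s (m * n)).filter (fun x => P x ∧ R x)).card =
      ((box s m).filter P).card * ((box s n).filter R).card := by
  rw [← Finset.card_product]
  refine Finset.card_bij (fun x _ => (cr_mod m x, cr_mod n x)) ?_ ?_ ?_
  · intro x hx
    rw [mem_filter] at hx
    rw [mem_product, mem_filter, mem_filter]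
    exact ⟨⟨cr_mod_mem hm x, (hP x).2 hx.2.1⟩, ⟨cr_mod_mem hn x, (hR x).2 hx.2.2⟩⟩
  · intro x hx y hy hxy
    rw [mem_filter, cr_mem_box] at hx hy
    simp only [Prod.mk.injEq, cr_mod] at hxy
    obtain ⟨⟨h1, h2⟩, ⟨h3, h4⟩⟩ := hxy
    refine Prod.ext (funext fun i => ?_) ?_
    · exact cr_uniq hmn (hx.1.1 i) (hy.1.1 i) (congrFun h1 i) (congrFun h3 i)
    · exact cr_uniq hmn hx.1.2 hy.1.2 h2 h4
  · intro y hy
    obtain ⟨a, c⟩ := y
    rw [mem_product, mem_filter, mem_filter, cr_mem_box, cr_mem_box] at hy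
    obtain ⟨⟨⟨ha1, ha2⟩, hPa⟩, ⟨⟨hc1, hc2⟩, hRc⟩⟩ := hy
    choose f hf1 hf2 hf3 using fun i => cr_exist hmn hm hn (ha1 i) (hc1 i)
    obtain ⟨z, hz1, hz2, hz3⟩ := cr_exist hmn hm hn ha2 hc2
    have e1 : cr_mod m (f, z) = a := Prod.ext (funext fun i => hf2 i) hz2
    have e2 : cr_mod n (f, z) = c := Prod.ext (funext fun i => hf3 i) hz3
    refine ⟨(f, z), ?_, ?_⟩
    · rw [mem_filter, cr_mem_box]
      exact ⟨⟨hf1, hz1⟩, (hP _).1 (e1 ▸ hPa), (hR _).1 (e2 ▸ hRc)⟩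
    · exact Prod.ext e1 e2

theorem pf_CRT : StCRT := by
  intro s W b S T hT
  induction T using Finset.induction_on with
  | empty =>
    have : box s 1 = {(0, 0)} := by
      ext x
      rw [cr_mem_box, mem_singleton]
      constructor
      · rintro ⟨h1, h2, h3⟩
        refine Prod.ext (funext fun i => ?_) ?_
        · have := h1 i
          simp only [Pi.zero_apply]
          push_cast at this
          omega
        · push_cast at h3
          show x.2 = 0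
          omega
      · rintro rfl
        simp
    simp [this]
  | insert p T hp ih =>
    have hpp := hT p (mem_insert_self _ _)
    have hT' : ∀ q ∈ T, q.Prime := fun q hq => hT q (mem_insert_of_mem hq)
    have hpos : 0 < ∏ q ∈ T, q := Finset.prod_pos fun q hq => (hT' q hq).pos
    have hcop : Nat.Coprime p (∏ q ∈ T, q) :=
      Nat.Coprime.prod_right fun q hq =>
        (Nat.coprime_primes hpp (hT' q hq)).2 (fun h => hp (h ▸ hq))
    rw [prod_insert hp, prod_insert hp, ← ih hT']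
    rw [← cr_two hcop hpp.pos hpos (hit W b S p) (fun x => ∀ q ∈ T, hit W b S q x)
      (fun x => cr_hit_mod dvd_rfl x) (fun x => forall₂_congr fun q hq =>
        cr_hit_mod (Finset.dvd_prod_of_mem (fun q => q) hq) x)]
    congr 1
    apply Finset.filter_congr
    intro x _
    simp [mem_insert, forall_eq_or_imp]

end Pool.Agent.Helper18.TR
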