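import Pool.Agent.Helper96.TR.CR

/-! Module EQ: equidistribution of cubes in residue classes. -/

namespace Pool.Agent.Helper18.TR

open Finset

/-- number of elements of a residue class in an interval -/
theorem eq_cnt {q : ℕ} (hq : 0 < q) (u v r : ℤ) (huv : u ≤ v) :
    (((Ico u v).filter (fun x => (q : ℤ) ∣ x - r)).card : ℝ) ≤ ((v - u : ℤ) : ℝ) / q + 1 := by
  have hq' : (0 : ℤ) < q := by exact_mod_cast hq
  have h1 : (Ico u v).filter (fun x => (q : ℤ) ∣ x - r) =
      (Ico u v).filter (fun x => x ≡ r [ZMOD q]) := by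
    apply Finset.filter_congr
    intro x _
    rw [Int.modEq_iff_dvd, ← dvd_neg, neg_sub]
  have h2 := Int.Ico_filter_modEq_card (a := u) (b := v) hq' r
  have hqr : (0 : ℝ) < q := by exact_mod_cast hq
  have hqq : (0 : ℚ) < ((q : ℤ) : ℚ) := by exact_mod_cast hq
  rw [h1]
  have h3 : ((((Ico u v).filter (fun x => x ≡ r [ZMOD q])).card : ℤ) : ℚ) ≤
      ((v - u : ℤ) : ℚ) / (q : ℤ) + 1 := by
    rw [h2]
    push_cast
    have h4 := Int.ceil_lt_add_one (((v - r : ℤ) : ℚ) / ((q : ℤ) : ℚ))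
    have h5 := Int.le_ceil (((u - r : ℤ) : ℚ) / ((q : ℤ) : ℚ))
    push_cast at h4 h5
    have h6 : ((v : ℚ) - r) / (q : ℚ) - ((u : ℚ) - r) / (q : ℚ) = ((v : ℚ) - u) / q := by
      ring
    have h7 : (0 : ℚ) ≤ ((v : ℚ) - u) / q := by
      apply div_nonneg
      · have : (u : ℚ) ≤ v := by exact_mod_cast huv
        linarith
      · positivity
    refine max_le ?_ (by linarith)
    linarith
  have h8 : ((((((Ico u v).filter (fun x => x ≡ r [ZMOD q])).card : ℤ) : ℚ) : ℝ)) ≤
      ((((v - u : ℤ) : ℚ) / (q : ℤ) + 1 : ℚ) : ℝ) := by exact_mod_cast h3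
  push_cast at h8 ⊢
  exact h8

/-- the class of `a` in the cube -/
noncomputable def cls {s : ℕ} (D q : ℕ) (a : (Fin s → ℤ) × ℤ) : Finset ((Fin s → ℤ) × ℤ) :=
  (cube s D).filter (fun x => (∀ i, (q : ℤ) ∣ x.1 i - a.1 i) ∧ (q : ℤ) ∣ x.2 - a.2)

theorem eq_mem_cube {s D : ℕ} {x : (Fin s → ℤ) × ℤ} :
    x ∈ cube s D ↔ ∀ ω : Finset (Fin s), 0 ≤ vert x.1 x.2 ω ∧ vert x.1 x.2 ω < D := by
  constructor
  · intro h
    exact (mem_filter.1 h).2
  · intro h
    refine mem_filter.2 ⟨?_, h⟩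
    have h0 := h ∅
    simp only [vert, sum_empty, add_zero] at h0
    rw [mem_product]
    refine ⟨?_, mem_Ico.2 h0⟩
    rw [Fintype.mem_piFinset]
    intro i
    have h1 := h {i}
    simp only [vert, sum_singleton] at h1
    rw [mem_Ioo]
    constructor <;> linarith [h0.1, h0.2, h1.1, h1.2]

/-- the points of the class of `a` with a vertex near the boundary -/
noncomputable def bdy {s : ℕ} (D q : ℕ) (a : (Fin s → ℤ) × ℤ) : Finset ((Fin s → ℤ) × ℤ) :=
  (cls D q a).filter (fun x => ∃ ω : Finset (Fin s), vert x.1 x.2 ω < (s + 1) * q ∨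
    (D : ℤ) - (s + 1) * q ≤ vert x.1 x.2 ω)

theorem eq_shift {s D q : ℕ} {a a' : (Fin s → ℤ) × ℤ}
    (ha : a ∈ box s q) (ha' : a' ∈ box s q) :
    (cls D q a).card ≤ (cls D q a').card + (bdy D q a).card := by
  classical
  have h1 : (cls D q a).card = (cls D q a \ bdy D q a).card + (bdy D q a).card := by
    rw [bdy, Finset.card_sdiff_add_card_eq_card (filter_subset _ _)]
  rw [h1]
  refine Nat.add_le_add_right ?_ _
  refine Finset.card_le_card_of_injOn
    (fun x => (fun i => x.1 i + (a'.1 i - a.1 i), x.2 + (a'.2 - a.2))) ?_ ?_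
  · intro x hx
    rw [mem_coe, mem_sdiff] at hx
    obtain ⟨hx1, hx2⟩ := hx
    have hx3 := hx1
    rw [cls, mem_filter] at hx1
    rw [bdy, mem_filter, not_and] at hx2
    have hx4 := hx2 hx3
    push Not at hx4
    rw [cr_mem_box] at ha ha'
    rw [mem_coe, cls, mem_filter, eq_mem_cube]
    refine ⟨?_, ?_, ?_⟩
    · intro ω
      have h2 : vert (fun i => x.1 i + (a'.1 i - a.1 i)) (x.2 + (a'.2 - a.2)) ω =
          vert x.1 x.2 ω + ((a'.2 - a.2) + ∑ i ∈ ω, (a'.1 i - a.1 i)) := by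
        simp only [vert, sum_add_distrib]; ring
      have h3 : |(a'.2 - a.2) + ∑ i ∈ ω, (a'.1 i - a.1 i)| ≤ (s + 1) * q := by
        have e1 : |a'.2 - a.2| ≤ q := abs_le.2 ⟨by linarith [ha.2.2, ha'.2.1],
          by linarith [ha'.2.2, ha.2.1]⟩
        have e2 : |∑ i ∈ ω, (a'.1 i - a.1 i)| ≤ s * q := by
          refine (abs_sum_le_sum_abs _ _).trans ?_
          refine (sum_le_card_nsmul _ _ (q : ℤ) fun i _ => abs_le.2 ⟨?_, ?_⟩).trans ?_
          · linarith [(ha.1 i).2, (ha'.1 i).1]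
          · linarith [(ha'.1 i).2, (ha.1 i).1]
          · rw [nsmul_eq_mul]
            refine mul_le_mul_of_nonneg_right ?_ (by positivity)
            have := card_le_univ ω
            rw [Fintype.card_fin] at this
            exact_mod_cast this
        refine (abs_add_le _ _).trans ?_
        linarith
      have h4 := hx4 ω
      have h5 := abs_le.1 h3
      rw [h2]
      constructor <;> linarith [h4.1, h4.2, h5.1, h5.2]
    · intro i
      have := hx1.2.1 i
      show (q : ℤ) ∣ x.1 i + (a'.1 i - a.1 i) - a'.1 i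
      have e : x.1 i + (a'.1 i - a.1 i) - a'.1 i = x.1 i - a.1 i := by ring
      rwa [e]
    · have := hx1.2.2
      show (q : ℤ) ∣ x.2 + (a'.2 - a.2) - a'.2
      have e : x.2 + (a'.2 - a.2) - a'.2 = x.2 - a.2 := by ring
      rwa [e]
  · intro x _ y _ hxy
    simp only [Prod.mk.injEq] at hxy
    refine Prod.ext (funext fun i => ?_) ?_
    · have := congrFun hxy.1 i
      simpa using this
    · simpa using hxy.2

theorem eq_strip {s D q : ℕ} (hq : 0 < q) (hqD : q ≤ D) (a : (Fin s → ℤ) × ℤ)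
    (ω : Finset (Fin s)) (u v : ℤ) (huv : v - u = (s + 1) * q) :
    (((cls D q a).filter (fun x => u ≤ vert x.1 x.2 ω ∧ vert x.1 x.2 ω < v)).card : ℝ) ≤
      (3 * ((D : ℝ) / q)) ^ s * (s + 2) := by
  classical
  have hqr : (0 : ℝ) < q := by exact_mod_cast hq
  have hDq : (1 : ℝ) ≤ (D : ℝ) / q := by
    rw [le_div_iff₀ hqr, one_mul]; exact_mod_cast hqD
  have h1 : ((cls D q a).filter (fun x => u ≤ vert x.1 x.2 ω ∧ vert x.1 x.2 ω < v)).card ≤
      ((Fintype.piFinset (fun i : Fin s =>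
        (Ico (-(D : ℤ)) D).filter (fun x => (q : ℤ) ∣ x - a.1 i))) ×ˢ
        ((Ico u v).filter (fun x => (q : ℤ) ∣ x - vert a.1 a.2 ω))).card := by
    refine Finset.card_le_card_of_injOn (fun x => (x.1, vert x.1 x.2 ω)) ?_ ?_
    · intro x hx
      rw [mem_coe, mem_filter, cls, mem_filter, cube, mem_filter, mem_product] at hx
      obtain ⟨⟨⟨⟨hx1, hx2⟩, hx3⟩, hx4, hx5⟩, hx6, hx7⟩ := hx
      rw [mem_coe, mem_product, Fintype.mem_piFinset]
      refine ⟨fun i => ?_, ?_⟩
      · rw [mem_filter, mem_Ico]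
        rw [Fintype.mem_piFinset] at hx1
        have := mem_Ioo.1 (hx1 i)
        exact ⟨⟨this.1.le, this.2⟩, hx4 i⟩
      · rw [mem_filter, mem_Ico]
        exact ⟨⟨hx6, hx7⟩, cr_vert hx4 hx5 ω⟩
    · intro x _ y _ hxy
      simp only [Prod.mk.injEq] at hxy
      refine Prod.ext hxy.1 ?_
      have h2 := hxy.2
      rw [hxy.1] at h2
      simpa [vert] using h2
  have h2 : (((cls D q a).filter (fun x => u ≤ vert x.1 x.2 ω ∧ vert x.1 x.2 ω < v)).card : ℝ) ≤
      (∏ i : Fin s, (((Ico (-(D : ℤ)) D).filter (fun x => (q : ℤ) ∣ x - a.1 i)).card : ℝ)) *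
        ((Ico u v).filter (fun x => (q : ℤ) ∣ x - vert a.1 a.2 ω)).card := by
    refine (Nat.cast_le.2 h1).trans (le_of_eq ?_)
    rw [card_product, Fintype.card_piFinset]
    push_cast
    rfl
  refine h2.trans ?_
  have h3 : ∏ i : Fin s, (((Ico (-(D : ℤ)) D).filter (fun x => (q : ℤ) ∣ x - a.1 i)).card : ℝ) ≤
      (3 * ((D : ℝ) / q)) ^ s := by
    calc ∏ i : Fin s, (((Ico (-(D : ℤ)) D).filter (fun x => (q : ℤ) ∣ x - a.1 i)).card : ℝ)
        ≤ ∏ _i : Fin s, (3 * ((D : ℝ) / q)) := by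
          refine Finset.prod_le_prod (fun i _ => by positivity) fun i _ => ?_
          refine (eq_cnt hq _ _ _ (by linarith [Int.natCast_nonneg D])).trans ?_
          push_cast
          have : ((D : ℝ) - -D) / q = 2 * ((D : ℝ) / q) := by ring
          rw [this]; linarith
      _ = _ := by simp
  have h4 : (((Ico u v).filter (fun x => (q : ℤ) ∣ x - vert a.1 a.2 ω)).card : ℝ) ≤ s + 2 := by
    refine (eq_cnt hq _ _ _ ?_).trans ?_
    · have : (0 : ℤ) ≤ (s + 1) * q := by positivity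
      linarith
    · rw [huv]
      push_cast
      rw [mul_div_assoc, div_self hqr.ne']
      linarith
  exact mul_le_mul h3 h4 (by positivity) (by positivity)

theorem eq_bdy {s D q : ℕ} (hq : 0 < q) (hqD : q ≤ D) (a : (Fin s → ℤ) × ℤ) :
    ((bdy D q a).card : ℝ) ≤ 2 ^ (s + 1) * (3 ^ s * (s + 2)) * ((D : ℝ) / q) ^ s := by
  classical
  have h1 : bdy D q a ⊆ (univ : Finset (Finset (Fin s))).biUnion (fun ω =>
      (cls D q a).filter (fun x => (0 : ℤ) ≤ vert x.1 x.2 ω ∧ vert x.1 x.2 ω < (s + 1) * q) ∪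
      (cls D q a).filter (fun x => (D : ℤ) - (s + 1) * q ≤ vert x.1 x.2 ω ∧
        vert x.1 x.2 ω < D)) := by
    intro x hx
    rw [bdy, mem_filter] at hx
    obtain ⟨hx1, ω, hω⟩ := hx
    have hx2 := (mem_filter.1 (mem_filter.1 hx1).1).2 ω
    rw [mem_biUnion]
    refine ⟨ω, mem_univ _, ?_⟩
    rw [mem_union, mem_filter, mem_filter]
    rcases hω with h | h
    · exact Or.inl ⟨hx1, hx2.1, h⟩
    · exact Or.inr ⟨hx1, h, hx2.2⟩
  have h2 : ((bdy D q a).card : ℝ) ≤ ∑ ω : Finset (Fin s),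
      (2 * ((3 * ((D : ℝ) / q)) ^ s * (s + 2))) := by
    refine (Nat.cast_le.2 ((card_le_card h1).trans card_biUnion_le)).trans ?_
    push_cast
    refine sum_le_sum fun ω _ => ?_
    refine (Nat.cast_le.2 (card_union_le _ _)).trans ?_
    push_cast
    rw [two_mul]
    refine add_le_add (eq_strip hq hqD a ω _ _ ?_) (eq_strip hq hqD a ω _ _ ?_)
    · ring
    · ring
  refine h2.trans (le_of_eq ?_)
  rw [sum_const, card_univ, Fintype.card_finset, Fintype.card_fin, nsmul_eq_mul]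
  push_cast
  rw [mul_pow]
  ring

theorem eq_card_box (s q : ℕ) : (box s q).card = q ^ (s + 1) := by
  rw [box, card_product, Fintype.card_piFinset]
  simp [pow_succ]

theorem eq_sum {s D q : ℕ} (hq : 0 < q) : ∑ a ∈ box s q, (cls D q a).card = (cube s D).card := by
  rw [Finset.card_eq_sum_card_fiberwise (f := cr_mod q) (t := box s q)
    (fun x _ => cr_mod_mem hq x)]
  refine sum_congr rfl fun a ha => ?_
  rw [cls]
  congr 1
  apply Finset.filter_congr
  intro x _
  rw [cr_mem_box] at ha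
  constructor
  · rintro ⟨h1, h2⟩
    refine Prod.ext (funext fun i => ?_) ?_
    · have h3 : x.1 i % q = a.1 i % q := by
        have := h1 i
        rw [← dvd_neg, neg_sub] at this
        exact (Int.modEq_iff_dvd).2 this
      rw [Int.emod_eq_of_lt (ha.1 i).1 (ha.1 i).2] at h3
      exact h3
    · have h3 : x.2 % q = a.2 % q := by
        rw [← dvd_neg, neg_sub] at h2
        exact (Int.modEq_iff_dvd).2 h2
      rw [Int.emod_eq_of_lt ha.2.1 ha.2.2] at h3
      exact h3
  · intro h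
    rw [← h]
    constructor
    · intro i
      show (q : ℤ) ∣ x.1 i - x.1 i % q
      exact Int.dvd_self_sub_emod
    · show (q : ℤ) ∣ x.2 - x.2 % q
      exact Int.dvd_self_sub_emod

theorem pf_Equi : StEqui := by
  intro s
  refine ⟨2 ^ (s + 1) * (3 ^ s * (s + 2)), by positivity, ?_⟩
  intro D q hq hqD a ha
  have hq0 : 0 < q := hq
  have hqr : (0 : ℝ) < q := by exact_mod_cast hq0
  set B : ℝ := 2 ^ (s + 1) * (3 ^ s * (s + 2)) * ((D : ℝ) / q) ^ s with hB
  change |((cls D q a).card : ℝ) - ((cube s D).card : ℝ) / (q : ℝ) ^ (s + 1)| ≤ B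
  have h1 : ∀ a' ∈ box s q, |((cls D q a).card : ℝ) - ((cls D q a').card : ℝ)| ≤ B := by
    intro a' ha'
    have e1 : ((cls D q a).card : ℝ) ≤ (cls D q a').card + (bdy D q a).card := by
      exact_mod_cast eq_shift ha ha'
    have e2 : ((cls D q a').card : ℝ) ≤ (cls D q a).card + (bdy D q a').card := by
      exact_mod_cast eq_shift ha' ha
    have e3 := eq_bdy hq0 hqD a
    have e4 := eq_bdy hq0 hqD a'
    rw [abs_le]
    constructor <;> linarith
  have h2 : ((cls D q a).card : ℝ) - ((cube s D).card : ℝ) / (q : ℝ) ^ (s + 1) =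
      (∑ a' ∈ box s q, (((cls D q a).card : ℝ) - ((cls D q a').card : ℝ))) /
        (q : ℝ) ^ (s + 1) := by
    rw [sum_sub_distrib, sum_const, eq_card_box, ← eq_sum hq0]
    push_cast
    rw [nsmul_eq_mul]
    push_cast
    field_simp
  rw [h2, abs_div, abs_of_pos (by positivity : (0 : ℝ) < (q : ℝ) ^ (s + 1)),
    div_le_iff₀ (by positivity)]
  refine (abs_sum_le_sum_abs _ _).trans ?_
  refine (sum_le_sum h1).trans ?_
  rw [sum_const, eq_card_box, nsmul_eq_mul]
  push_cast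
  linarith

end Pool.Agent.Helper18.TR
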