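import Pool.Agent.Helper18.TR.St

/-! Module LV: the level. -/

namespace Pool.Agent.Helper18.TR

open Finset

theorem lv_idx_le (w p : ℕ) : idx w p ≤ w :=
  (Nat.log_le_self _ _).trans (Nat.log_le_self _ _)

theorem lv_pow_le {w p : ℕ} (hp : p.Prime) (hpw : p ≤ w) : p ^ (2 ^ idx w p) ≤ w := by
  have h1 : 1 ≤ Nat.log p w := (Nat.log_pos hp.one_lt hpw)
  have h2 : 2 ^ idx w p ≤ Nat.log p w := Nat.pow_log_le_self 2 (by omega)
  have hw : w ≠ 0 := by have := hp.pos; omega
  exact (Nat.pow_le_pow_right hp.pos h2).trans (Nat.pow_log_le_self p hw)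

theorem lv_sum (b n : ℕ) : ∑ i ∈ range n, ((b : ℝ) + 2 * i + 1) / 2 ^ i =
    2 * b + 6 - (2 * b + 6 + 4 * n) / 2 ^ n := by
  induction n with
  | zero => simp
  | succ n ih =>
    rw [sum_range_succ, ih]
    push_cast
    field_simp
    ring

theorem lv_card {w b : ℕ} {Q T : Finset ℕ} (hT : T ∈ fam0 w b Q ∪ fam1 w b Q) :
    T ⊆ Q ∧ ∀ i ∈ range (w + 1), (Qi w T i).card ≤ b + 2 * i + 1 := by
  classical
  rcases mem_union.1 hT with h | h
  · unfold fam0 at h
    simp only [mem_filter, mem_powerset] at h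
    exact ⟨h.1, fun i hi => (h.2 i hi).trans (by omega)⟩
  · unfold fam1 at h
    simp only [mem_filter, mem_powerset] at h
    obtain ⟨h1, i, hi, h2, h3⟩ := h
    refine ⟨h1, fun j hj => ?_⟩
    by_cases hji : j = i
    · rw [hji, h2]
    · exact (h3 j hj hji).trans (by omega)

theorem pf_Level : StLevel := by
  intro b
  refine ⟨2 * b + 6, ?_⟩
  intro w hw Q hQ T hT
  obtain ⟨hTQ, hc⟩ := lv_card hT
  have hw0 : (0 : ℝ) < w := by exact_mod_cast hw
  have hlw : 0 ≤ Real.log w := Real.log_nonneg (by exact_mod_cast hw)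
  have hTp : ∀ p ∈ T, p.Prime ∧ p ≤ w := fun p hp => hQ p (hTQ hp)
  have h1 : Real.log (∏ p ∈ T, (p : ℝ)) ≤ (2 * b + 6) * Real.log w := by
    rw [Real.log_prod fun p hp => by have := (hTp p hp).1.pos; positivity]
    rw [← sum_fiberwise_of_maps_to (s := T) (t := range (w + 1)) (g := idx w)
      (fun p _ => mem_range.2 (Nat.lt_succ_of_le (lv_idx_le w p)))]
    calc ∑ i ∈ range (w + 1), ∑ p ∈ T.filter (fun p => idx w p = i), Real.log (p : ℝ)
        ≤ ∑ i ∈ range (w + 1), ((b : ℝ) + 2 * i + 1) / 2 ^ i * Real.log w := by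
          refine sum_le_sum fun i hi => ?_
          have h2 : ∀ p ∈ T.filter (fun p => idx w p = i), Real.log (p : ℝ) ≤
              Real.log w / 2 ^ i := by
            intro p hp
            rw [mem_filter] at hp
            have h3 := lv_pow_le (hTp p hp.1).1 (hTp p hp.1).2
            rw [hp.2] at h3
            have hp0 : (0 : ℝ) < p := by exact_mod_cast (hTp p hp.1).1.pos
            have h4 : Real.log ((p : ℝ) ^ (2 ^ i)) ≤ Real.log w :=
              Real.log_le_log (by positivity) (by exact_mod_cast h3)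
            rw [Real.log_pow] at h4
            rw [le_div_iff₀ (by positivity)]
            push_cast at h4
            linarith
          refine (sum_le_card_nsmul _ _ _ h2).trans ?_
          rw [nsmul_eq_mul]
          have h5 : ((T.filter (fun p => idx w p = i)).card : ℝ) ≤ (b : ℝ) + 2 * i + 1 := by
            have := hc i hi
            rw [Qi] at this
            exact_mod_cast this
          rw [div_mul_eq_mul_div, mul_div_assoc']
          exact div_le_div_of_nonneg_right (mul_le_mul_of_nonneg_right h5 hlw) (by positivity)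
      _ = (2 * b + 6 - (2 * b + 6 + 4 * ((w + 1 : ℕ) : ℝ)) / 2 ^ (w + 1)) * Real.log w := by
          rw [← sum_mul, lv_sum]
      _ ≤ (2 * b + 6) * Real.log w := by
          refine mul_le_mul_of_nonneg_right ?_ hlw
          have : (0 : ℝ) ≤ (2 * b + 6 + 4 * ((w + 1 : ℕ) : ℝ)) / 2 ^ (w + 1) := by positivity
          linarith
  have hpos : (0 : ℝ) < ∏ p ∈ T, (p : ℝ) :=
    prod_pos fun p hp => by have := (hTp p hp).1.pos; positivity
  have h6 : Real.log (∏ p ∈ T, (p : ℝ)) ≤ Real.log ((w : ℝ) ^ (2 * b + 6)) := by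
    rw [Real.log_pow]; push_cast; exact h1
  have h7 := (Real.log_le_log_iff hpos (by positivity)).1 h6
  have h8 : ((∏ p ∈ T, p : ℕ) : ℝ) ≤ ((w ^ (2 * b + 6) : ℕ) : ℝ) := by push_cast; exact h7
  exact Nat.cast_le.1 h8

end Pool.Agent.Helper18.TR
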