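import Pool.Agent.Helper18.TR.St

/-! Module SB: Bonferroni inequalities for truncated products. -/

namespace Pool.Agent.Helper18.TR

open Finset

theorem sb_Yy_eq (u : ℕ) (Q : Finset ℕ) (g : ℕ → ℝ) :
    Yy u Q g = ∑ T ∈ Q.powerset, if T.card ≤ u then (-1) ^ T.card * ∏ p ∈ T, g p else 0 := by
  rw [Yy, sum_filter]

theorem sb_ee_eq (u : ℕ) (Q : Finset ℕ) (g : ℕ → ℝ) :
    ee u Q g = ∑ T ∈ Q.powerset, if T.card = u then ∏ p ∈ T, g p else 0 := by
  rw [ee, powersetCard_eq_filter, sum_filter]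

theorem sb_Yy_zero (Q : Finset ℕ) (g : ℕ → ℝ) : Yy 0 Q g = 1 := by
  rw [Yy]
  have : Q.powerset.filter (fun T => T.card ≤ 0) = {∅} := by
    ext T
    simp only [mem_filter, mem_powerset, nonpos_iff_eq_zero, card_eq_zero, mem_singleton]
    constructor
    · exact fun h => h.2
    · rintro rfl
      exact ⟨empty_subset _, rfl⟩
  rw [this]; simp

theorem sb_ee_zero (Q : Finset ℕ) (g : ℕ → ℝ) : ee 0 Q g = 1 := by
  rw [ee]; simp

theorem sb_Yy_insert {p : ℕ} {Q : Finset ℕ} (hp : p ∉ Q) (u : ℕ) (g : ℕ → ℝ) :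
    Yy (u + 1) (insert p Q) g = Yy (u + 1) Q g - g p * Yy u Q g := by
  rw [sb_Yy_eq, sb_Yy_eq, sb_Yy_eq, sum_powerset_insert hp, mul_sum, sub_eq_add_neg,
    ← sum_neg_distrib]
  congr 1
  refine sum_congr rfl fun T hT => ?_
  have hpT : p ∉ T := fun h => hp (mem_powerset.1 hT h)
  rw [card_insert_of_notMem hpT, prod_insert hpT]
  by_cases h : T.card ≤ u
  · rw [if_pos (by omega), if_pos h, pow_succ]; ring
  · rw [if_neg (by omega), if_neg h]; ring

theorem sb_ee_insert {p : ℕ} {Q : Finset ℕ} (hp : p ∉ Q) (u : ℕ) (g : ℕ → ℝ) :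
    ee (u + 1) (insert p Q) g = ee (u + 1) Q g + g p * ee u Q g := by
  rw [sb_ee_eq, sb_ee_eq, sb_ee_eq, sum_powerset_insert hp, mul_sum]
  congr 1
  refine sum_congr rfl fun T hT => ?_
  have hpT : p ∉ T := fun h => hp (mem_powerset.1 hT h)
  rw [card_insert_of_notMem hpT, prod_insert hpT]
  by_cases h : T.card = u
  · rw [if_pos (by omega), if_pos h]
  · rw [if_neg (by omega), if_neg h]; ring

theorem sb_prod (Q : Finset ℕ) (g : ℕ → ℝ) (h : ∀ p ∈ Q, 0 ≤ g p ∧ g p ≤ 1) :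
    0 ≤ ∏ p ∈ Q, (1 - g p) ∧ ∏ p ∈ Q, (1 - g p) ≤ 1 :=
  ⟨prod_nonneg fun p hp => by linarith [(h p hp).2],
    prod_le_one (fun p hp => by linarith [(h p hp).2]) fun p hp => by linarith [(h p hp).1]⟩

theorem sb_main (g : ℕ → ℝ) (Q : Finset ℕ) : (∀ p ∈ Q, 0 ≤ g p ∧ g p ≤ 1) → ∀ u : ℕ,
    0 ≤ (-1 : ℝ) ^ u * (Yy u Q g - ∏ p ∈ Q, (1 - g p)) ∧
    (-1 : ℝ) ^ u * (Yy u Q g - ∏ p ∈ Q, (1 - g p)) ≤ ee (u + 1) Q g := by
  induction Q using Finset.induction_on with
  | empty =>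
    intro _ u
    have h1 : Yy u ∅ g = 1 := by rw [sb_Yy_eq]; simp
    have h2 : ee (u + 1) ∅ g = 0 := by rw [sb_ee_eq]; simp
    rw [h1, h2]; simp
  | insert p Q hp ih =>
    intro h u
    have hQ : ∀ p ∈ Q, 0 ≤ g p ∧ g p ≤ 1 := fun q hq => h q (mem_insert_of_mem hq)
    have hgp := h p (mem_insert_self _ _)
    have ih' := ih hQ
    rw [prod_insert hp]
    cases u with
    | zero =>
      have h0 := ih' 0
      have h1 := sb_prod Q g hQ
      rw [sb_Yy_zero, pow_zero, one_mul] at h0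
      rw [sb_Yy_zero, sb_ee_insert hp, sb_ee_zero, pow_zero, one_mul]
      set G := ∏ p ∈ Q, (1 - g p)
      constructor <;> nlinarith [h0.1, h0.2, h1.1, h1.2, hgp.1, hgp.2]
    | succ u =>
      have h0 := ih' (u + 1)
      have h1 := ih' u
      rw [sb_Yy_insert hp, sb_ee_insert hp]
      set G := ∏ p ∈ Q, (1 - g p)
      have e : (-1 : ℝ) ^ (u + 1) * (Yy (u + 1) Q g - g p * Yy u Q g - (1 - g p) * G) =
          (-1 : ℝ) ^ (u + 1) * (Yy (u + 1) Q g - G) + g p * ((-1 : ℝ) ^ u * (Yy u Q g - G)) := by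
        rw [pow_succ]; ring
      rw [e]
      have h3 := mul_nonneg hgp.1 h1.1
      have h4 := mul_le_mul_of_nonneg_left h1.2 hgp.1
      constructor <;> linarith [h0.1, h0.2]

theorem pf_Sym : StSym := by
  intro u Q g hu h
  have h1 := sb_main g Q h u
  rw [hu.neg_one_pow, one_mul] at h1
  constructor <;> linarith [h1.1, h1.2]

theorem sb_pow {a x : ℝ} (ha : 0 ≤ a) (hx : 0 ≤ x) (n : ℕ) :
    a ^ (n + 1) + (n + 1) * x * a ^ n ≤ (a + x) ^ (n + 1) := by
  induction n with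
  | zero => simp
  | succ n ih =>
    have h1 : (a + x) * (a ^ (n + 1) + (n + 1) * x * a ^ n) ≤ (a + x) * (a + x) ^ (n + 1) :=
      mul_le_mul_of_nonneg_left ih (by linarith)
    have h2 : 0 ≤ (n + 1) * x ^ 2 * a ^ n := by positivity
    push_cast
    calc a ^ (n + 1 + 1) + (n + 1 + 1) * x * a ^ (n + 1)
        ≤ (a + x) * (a ^ (n + 1) + (n + 1) * x * a ^ n) := by
          have : (a + x) * (a ^ (n + 1) + (n + 1) * x * a ^ n) =
            a ^ (n + 1 + 1) + (n + 1 + 1) * x * a ^ (n + 1) + (n + 1) * x ^ 2 * a ^ n := by ring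
          rw [this]; linarith
      _ ≤ (a + x) * (a + x) ^ (n + 1) := h1
      _ = (a + x) ^ (n + 1 + 1) := by ring

theorem pf_Esymm : StEsymm := by
  intro u Q g
  revert u
  induction Q using Finset.induction_on with
  | empty =>
    intro u _
    cases u with
    | zero => rw [sb_ee_zero]; simp
    | succ u =>
      have h2 : ee (u + 1) ∅ g = 0 := by rw [sb_ee_eq]; simp
      rw [h2]; simp
  | insert p Q hp ih =>
    intro u h
    have hQ : ∀ p ∈ Q, 0 ≤ g p := fun q hq => h q (mem_insert_of_mem hq)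
    have hgp := h p (mem_insert_self _ _)
    cases u with
    | zero => rw [sb_ee_zero]; simp
    | succ u =>
      have h0 := ih (u + 1) hQ
      have h1 := ih u hQ
      rw [sb_ee_insert hp, sum_insert hp]
      set a := ∑ p ∈ Q, g p with ha
      have ha0 : 0 ≤ a := sum_nonneg hQ
      constructor
      · exact add_nonneg h0.1 (mul_nonneg hgp h1.1)
      · refine (add_le_add h0.2 (mul_le_mul_of_nonneg_left h1.2 hgp)).trans ?_
        have h3 := sb_pow ha0 hgp u
        have hf : (0 : ℝ) < ((u + 1).factorial : ℝ) := by exact_mod_cast Nat.factorial_pos _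
        have hf' : (0 : ℝ) < (u.factorial : ℝ) := by exact_mod_cast Nat.factorial_pos _
        rw [le_div_iff₀ hf, add_comm (g p) a]
        refine le_trans (le_of_eq ?_) h3
        rw [Nat.factorial_succ]
        push_cast
        field_simp

end Pool.Agent.Helper18.TR
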