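import Pool.Agent.Helper18.TR.St
import Pool.Agent.Helper28.PC.Mert

/-! Module VL: lower bound for the density. -/

namespace Pool.Agent.Helper18.TR

open Finset

theorem vl_tele (n : ℕ) : ∑ k ∈ range n, (1 : ℝ) / (((k + 2 : ℕ) : ℝ) * ((k + 2 : ℕ) - 1)) =
    1 - 1 / ((n : ℝ) + 1) := by
  induction n with
  | zero => simp
  | succ n ih =>
    rw [sum_range_succ, ih]
    push_cast
    have h1 : (n : ℝ) + 1 ≠ 0 := by positivity
    have h2 : (n : ℝ) + 2 ≠ 0 := by positivity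
    have h3 : (n : ℝ) + 2 - 1 ≠ 0 := by
      have : (n : ℝ) + 2 - 1 = n + 1 := by ring
      rw [this]; exact h1
    have h4 : (n : ℝ) + 1 + 1 ≠ 0 := by positivity
    field_simp
    ring

theorem vl_sum (w : ℕ) : ∑ p ∈ w.primesLE, (1 : ℝ) / ((p : ℝ) * (p - 1)) ≤ 1 := by
  have h1 : w.primesLE ⊆ (range w).image (fun k => k + 2) := by
    intro p hp
    rw [Nat.mem_primesLE] at hp
    rw [mem_image]
    have h2 := hp.2.two_le
    exact ⟨p - 2, mem_range.2 (by omega), by omega⟩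
  have h2 : ∑ p ∈ w.primesLE, (1 : ℝ) / ((p : ℝ) * (p - 1)) ≤
      ∑ p ∈ (range w).image (fun k : ℕ => (k + 2 : ℕ)), (1 : ℝ) / (((p : ℕ) : ℝ) * ((p : ℕ) - 1)) := by
    refine sum_le_sum_of_subset_of_nonneg h1 fun p hp _ => ?_
    rw [mem_image] at hp
    obtain ⟨k, _, rfl⟩ := hp
    push_cast
    have : (k : ℝ) + 2 - 1 = k + 1 := by ring
    rw [this]; positivity
  refine h2.trans ?_
  rw [sum_image (by intro a _ b _ h; simpa using h), vl_tele]
  have : (0 : ℝ) ≤ 1 / ((w : ℝ) + 1) := by positivity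
  linarith

theorem pf_Vlow : StVlow := by
  refine ⟨Real.exp (-6), Real.exp_pos _, ?_⟩
  intro W w hw
  have hwr : (1 : ℝ) < w := by exact_mod_cast (by omega : 1 < w)
  have hlog : 0 < Real.log w := Real.log_pos hwr
  have hfac : ∀ p ∈ w.primesLE, (0 : ℝ) < 1 - 1 / (p : ℝ) ∧ (1 : ℝ) - 1 / (p : ℝ) ≤ 1 := by
    intro p hp
    rw [Nat.mem_primesLE] at hp
    have h2 : (2 : ℝ) ≤ p := by exact_mod_cast hp.2.two_le
    constructor
    · have : 1 / (p : ℝ) < 1 := by rw [div_lt_one (by linarith)]; linarith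
      linarith
    · have : 0 ≤ 1 / (p : ℝ) := by positivity
      linarith
  have h1 : ∏ p ∈ w.primesLE, (1 - 1 / (p : ℝ)) ≤ V W w := by
    rw [V]
    have hsub : PW W w ⊆ w.primesLE := by
      intro p hp
      rw [PW, mem_filter, mem_Icc] at hp
      rw [Nat.mem_primesLE]
      exact ⟨hp.1.2, hp.2.1⟩
    rw [← prod_sdiff hsub]
    have h3 : ∏ p ∈ w.primesLE \ PW W w, (1 - 1 / (p : ℝ)) ≤ 1 :=
      prod_le_one (fun p hp => (hfac p (mem_sdiff.1 hp).1).1.le)
        fun p hp => (hfac p (mem_sdiff.1 hp).1).2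
    have h4 : 0 ≤ ∏ p ∈ PW W w, (1 - 1 / (p : ℝ)) :=
      prod_nonneg fun p hp => (hfac p (hsub hp)).1.le
    calc _ ≤ 1 * ∏ p ∈ PW W w, (1 - 1 / (p : ℝ)) := mul_le_mul_of_nonneg_right h3 h4
      _ = _ := one_mul _
  refine le_trans ?_ h1
  have hprod : 0 < ∏ p ∈ w.primesLE, (1 - 1 / (p : ℝ)) := prod_pos fun p hp => (hfac p hp).1
  have h5 : -(Real.log (Real.log w) + 6) ≤ Real.log (∏ p ∈ w.primesLE, (1 - 1 / (p : ℝ))) := by
    rw [Real.log_prod fun p hp => (hfac p hp).1.ne']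
    have h6 : ∀ p ∈ w.primesLE, -(1 / (p : ℝ) + 1 / ((p : ℝ) * (p - 1))) ≤
        Real.log (1 - 1 / (p : ℝ)) := by
      intro p hp
      have h7 := Real.one_sub_inv_le_log_of_pos (hfac p hp).1
      rw [Nat.mem_primesLE] at hp
      have h2 : (2 : ℝ) ≤ p := by exact_mod_cast hp.2.two_le
      refine le_trans (le_of_eq ?_) h7
      have h8 : (p : ℝ) ≠ 0 := by linarith
      have h9 : (p : ℝ) - 1 ≠ 0 := by linarith
      have h10 : (1 : ℝ) - 1 / p = (p - 1) / p := by field_simp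
      rw [h10, inv_div]
      field_simp
      ring
    refine le_trans ?_ (sum_le_sum h6)
    rw [sum_neg_distrib, sum_add_distrib]
    have h11 := Pool.Agent.Helper28.PC.sum_inv_le hw
    have h12 := vl_sum w
    linarith
  have h13 : Real.exp (-(Real.log (Real.log w) + 6)) ≤ ∏ p ∈ w.primesLE, (1 - 1 / (p : ℝ)) := by
    rw [← Real.exp_log hprod]
    exact Real.exp_le_exp.2 h5
  refine le_trans (le_of_eq ?_) h13
  have : -(Real.log (Real.log w) + 6) = -6 - Real.log (Real.log w) := by ring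
  rw [this, Real.exp_sub, Real.exp_log hlog]

end Pool.Agent.Helper18.TR
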