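import Pool.Agent.Helper13.TR.StB

/-!
# Project TR, module G2B: cuts of a product `ℝ × Y`
-/

set_option autoImplicit false

namespace Pool.Agent.Helper96.TR

open Set Topology Pool.Agent.Helper13.TR

private lemma td_prod {A B : Type} [TopologicalSpace A] [TopologicalSpace B] {S : Set A} {T : Set B}
    (hS : IsTotallyDisconnected S) (hT : IsTotallyDisconnected T) :
    IsTotallyDisconnected (S ×ˢ T) := by
  intro t ht hpre x hx y hy
  have h1 : (Prod.fst '' t).Subsingleton :=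
    hS _ (by rintro _ ⟨z, hz, rfl⟩; exact (ht hz).1) (hpre.image _ continuous_fst.continuousOn)
  have h2 : (Prod.snd '' t).Subsingleton :=
    hT _ (by rintro _ ⟨z, hz, rfl⟩; exact (ht hz).2) (hpre.image _ continuous_snd.continuousOn)
  exact Prod.ext (h1 (mem_image_of_mem _ hx) (mem_image_of_mem _ hy))
    (h2 (mem_image_of_mem _ hx) (mem_image_of_mem _ hy))

private lemma z0_mono {Z : Type} [TopologicalSpace Z] {L M : Set Z} (hL : Z0 L) (hM : IsClosed M)
    (h : M ⊆ L) : Z0 M :=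
  ⟨hL.1.of_isClosed_subset hM h, fun t ht hpre => hL.2 t (ht.trans h) hpre⟩

private lemma z0_prod {A B : Type} [TopologicalSpace A] [TopologicalSpace B] {S : Set A} {T : Set B}
    (hS : Z0 S) (hT : Z0 T) : Z0 (S ×ˢ T) :=
  ⟨hS.1.prod hT.1, td_prod hS.2 hT.2⟩

private lemma z0_pair (a b : ℝ) : Z0 ({a, b} : Set ℝ) :=
  ⟨(Set.toFinite _).isCompact, (Set.toFinite _).countable.isTotallyDisconnected⟩

/-- clopen pieces of a compact zero-dimensional set -/
private lemma z0_piece {Z : Type} [TopologicalSpace Z] [T2Space Z] {L : Set Z} (hL : Z0 L) {y : Z}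
    (hy : y ∈ L) {O : Set Z} (hO : IsOpen O) (hyO : y ∈ O) :
    ∃ E F : Set Z, IsClosed E ∧ IsClosed F ∧ E ∪ F = L ∧ E ⊆ O ∧ y ∈ E ∧ Disjoint E F := by
  have : CompactSpace ↥L := isCompact_iff_compactSpace.mp hL.1
  have : TotallyDisconnectedSpace ↥L := totallyDisconnectedSpace_subtype_iff.2 hL.2
  have hO' : IsOpen ((Subtype.val : ↥L → Z) ⁻¹' O) := hO.preimage continuous_subtype_val
  obtain ⟨V, hV, hyV, hVO⟩ := compact_exists_isClopen_in_isOpen hO' (x := ⟨y, hy⟩) hyO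
  have hLc : IsClosed L := hL.1.isClosed
  refine ⟨Subtype.val '' V, Subtype.val '' Vᶜ, hLc.isClosedEmbedding_subtypeVal.isClosedMap _ hV.1,
    hLc.isClosedEmbedding_subtypeVal.isClosedMap _ hV.compl.1,
    ?_, ?_, ⟨_, hyV, rfl⟩, ?_⟩
  · rw [← image_union, union_compl_self, image_univ, Subtype.range_val]
  · rintro _ ⟨z, hz, rfl⟩
    exact hVO hz
  · rw [Set.disjoint_image_iff Subtype.val_injective]
    exact disjoint_compl_right

private lemma z0_of_ind {Y : Type} [TopologicalSpace Y] [T2Space Y] (hIND : StIND) {V M : Set Y}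
    (hV : IndLT 1 ↥(frontier V)) (hM : IsCompact M) (hMV : M ⊆ frontier V) : Z0 M := by
  refine hIND.2 Y M hM ?_
  exact hIND.1 1 _ _ (inclusion hMV) (IsEmbedding.inclusion hMV) hV

private lemma z1_side {Y : Type} [TopologicalSpace Y] [T2Space Y] [LocallyCompactSpace Y]
    (hIND : StIND) (hY : IndLT 2 Y) {P : Set Y} (hP : IsCompact P) (a b : ℝ) :
    Z1 (({a, b} : Set ℝ) ×ˢ P) := by
  have hab : IsCompact ({a, b} : Set ℝ) := (Set.toFinite _).isCompact
  refine Z1.base _ (hab.prod hP) ?_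
  rintro ⟨s, v⟩ ⟨hs, hv⟩ O hO hy
  obtain ⟨I, J, hI, hJ, hsI, hvJ, hIJ⟩ := isOpen_prod_iff.1 hO s v hy
  obtain ⟨K, hK, hvK, hKJ⟩ := exists_compact_subset hJ hvJ
  obtain ⟨V, hVo, hvV, hVK, hVf⟩ := hY v (interior K) isOpen_interior hvK
  have hclV : closure V ⊆ J := (closure_minimal (hVK.trans interior_subset) hK.isClosed).trans hKJ
  have hS : IsClosed ({a, b} : Set ℝ) := hab.isClosed
  refine ⟨{s} ×ˢ (closure V ∩ P), (({a, b} : Set ℝ) ×ˢ P) \ ({s} ×ˢ V), ?_, ?_, ?_, ?_, ?_, ?_⟩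
  · exact isClosed_singleton.prod (isClosed_closure.inter hP.isClosed)
  · have h : (({a, b} : Set ℝ) ×ˢ P) \ ({s} ×ˢ V) =
        ((({a, b} : Set ℝ) \ {s}) ×ˢ P) ∪ (({a, b} : Set ℝ) ×ˢ (P \ V)) := by
      ext ⟨x, y⟩
      simp only [mem_sdiff, mem_prod, mem_union, mem_singleton_iff]
      tauto
    rw [h]
    refine IsClosed.union ?_ ?_
    · exact ((Set.toFinite _).isClosed).prod hP.isClosed
    · exact hS.prod (hP.isClosed.sdiff hVo)
  · ext ⟨x, y⟩
    constructor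
    · rintro (⟨hx, hy1⟩ | ⟨h, -⟩)
      · rw [mem_singleton_iff] at hx
        simp only at hx
        subst hx
        exact ⟨hs, hy1.2⟩
      · exact h
    · intro h
      by_cases hxy : (x, y) ∈ ({s} : Set ℝ) ×ˢ V
      · exact Or.inl ⟨hxy.1, subset_closure hxy.2, h.2⟩
      · exact Or.inr ⟨h, hxy⟩
  · rintro ⟨x, y⟩ ⟨hx, hy1⟩
    rw [mem_singleton_iff] at hx
    simp only at hx
    subst hx
    exact hIJ ⟨hsI, hclV hy1.1⟩
  · rintro ⟨-, h⟩
    exact h ⟨rfl, hvV⟩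
  · have hZ : Z0 (({s} : Set ℝ) ×ˢ (frontier V ∩ P)) := by
      refine z0_prod ⟨isCompact_singleton, isTotallyDisconnected_singleton⟩ ?_
      exact z0_of_ind hIND hVf (hP.inter_left isClosed_frontier) inter_subset_left
    refine z0_mono hZ ?_ ?_
    · refine IsClosed.inter (isClosed_singleton.prod (isClosed_closure.inter hP.isClosed)) ?_
      have h : (({a, b} : Set ℝ) ×ˢ P) \ ({s} ×ˢ V) =
        ((({a, b} : Set ℝ) \ {s}) ×ˢ P) ∪ (({a, b} : Set ℝ) ×ˢ (P \ V)) := by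
        ext ⟨x, y⟩
        simp only [mem_sdiff, mem_prod, mem_union, mem_singleton_iff]
        tauto
      rw [h]
      refine IsClosed.union ?_ ?_
      · exact ((Set.toFinite _).isClosed).prod hP.isClosed
      · exact hS.prod (hP.isClosed.sdiff hVo)
    · rintro ⟨x, y⟩ ⟨⟨hx, hy1, hy2⟩, -, h2⟩
      refine ⟨hx, ?_, hy2⟩
      rw [hVo.frontier_eq]
      exact ⟨hy1, fun h => h2 ⟨hx, h⟩⟩

private lemma z1_edge {Y : Type} [TopologicalSpace Y] [T2Space Y] {L : Set Y} (hL : Z0 L)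
    (a b : ℝ) : Z1 (Icc a b ×ˢ L) := by
  refine Z1.base _ (isCompact_Icc.prod hL.1) ?_
  rintro ⟨u, v⟩ ⟨hu, hv⟩ O hO hy
  obtain ⟨I, J, hI, hJ, huI, hvJ, hIJ⟩ := isOpen_prod_iff.1 hO u v hy
  obtain ⟨E, F, hE, hF, hEF, hEJ, hvE, hdis⟩ := z0_piece hL hv hJ hvJ
  obtain ⟨ε, hε, hball⟩ := Metric.isOpen_iff.1 hI u huI
  have hcd : Icc (u - ε / 2) (u + ε / 2) ⊆ I := by
    intro x hx
    apply hball
    rw [Metric.mem_ball, Real.dist_eq, abs_lt]
    constructor <;> linarith [hx.1, hx.2]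
  have hEL : E ⊆ L := hEF ▸ subset_union_left
  have hFL : F ⊆ L := hEF ▸ subset_union_right
  refine ⟨(Icc (u - ε / 2) (u + ε / 2) ∩ Icc a b) ×ˢ E,
    (Icc a b ×ˢ F) ∪ ((Icc a b \ Ioo (u - ε / 2) (u + ε / 2)) ×ˢ E), ?_, ?_, ?_, ?_, ?_, ?_⟩
  · exact (isClosed_Icc.inter isClosed_Icc).prod hE
  · exact (isClosed_Icc.prod hF).union ((isClosed_Icc.sdiff isOpen_Ioo).prod hE)
  · ext ⟨x, y⟩
    constructor
    · rintro (⟨hx, hy1⟩ | ⟨hx, hy1⟩ | ⟨hx, hy1⟩)
      · exact ⟨hx.2, hEL hy1⟩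
      · exact ⟨hx, hFL hy1⟩
      · exact ⟨hx.1, hEL hy1⟩
    · rintro ⟨hx, hy1⟩
      simp only at hx hy1
      rw [← hEF] at hy1
      rcases hy1 with hy1 | hy1
      · by_cases h : x ∈ Ioo (u - ε / 2) (u + ε / 2)
        · exact Or.inl ⟨⟨Ioo_subset_Icc_self h, hx⟩, hy1⟩
        · exact Or.inr (Or.inr ⟨⟨hx, h⟩, hy1⟩)
      · exact Or.inr (Or.inl ⟨hx, hy1⟩)
  · rintro ⟨x, y⟩ ⟨hx, hy1⟩
    exact hIJ ⟨hcd hx.1, hEJ hy1⟩
  · rintro (⟨hx, hy1⟩ | ⟨hx, hy1⟩)
    · exact disjoint_left.1 hdis hvE hy1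
    · exact hx.2 ⟨by simp only; linarith, by simp only; linarith⟩
  · refine z0_mono (z0_prod (z0_pair (u - ε / 2) (u + ε / 2)) hL) ?_ ?_
    · exact ((isClosed_Icc.inter isClosed_Icc).prod hE).inter
        ((isClosed_Icc.prod hF).union ((isClosed_Icc.sdiff isOpen_Ioo).prod hE))
    · rintro ⟨x, y⟩ ⟨⟨hx, hy1⟩, h⟩
      rcases h with ⟨-, hy2⟩ | ⟨hx2, -⟩
      · exact absurd hy2 (disjoint_left.1 hdis hy1)
      · refine ⟨?_, hEL hy1⟩
        have h1 := hx.1
        have h2 := hx2.2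
        simp only [mem_Icc, mem_Ioo, not_and, not_lt] at h1 h2
        simp only [mem_insert_iff, mem_singleton_iff]
        rcases eq_or_lt_of_le h1.1 with h3 | h3
        · exact Or.inl h3.symm
        · exact Or.inr (le_antisymm h1.2 (h2 h3))

/-- G2B: a product of the line with a one-dimensional space can be cut by sets of class `Z1`. -/
theorem hG2B (hIND : StIND) : StG2B := by
  intro Y _ _ _ hY
  rintro ⟨u, v⟩ O hO hy
  obtain ⟨I, J, hI, hJ, huI, hvJ, hIJ⟩ := isOpen_prod_iff.1 hO u v hy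
  obtain ⟨K, hK, hvK, hKJ⟩ := exists_compact_subset hJ hvJ
  obtain ⟨V, hVo, hvV, hVK, hVf⟩ := hY v (interior K) isOpen_interior hvK
  have hclK : closure V ⊆ K := closure_minimal (hVK.trans interior_subset) hK.isClosed
  have hclC : IsCompact (closure V) := hK.of_isClosed_subset isClosed_closure hclK
  obtain ⟨ε, hε, hball⟩ := Metric.isOpen_iff.1 hI u huI
  set a := u - ε / 2 with ha
  set b := u + ε / 2 with hb
  have hab : a ≤ b := by rw [ha, hb]; linarith
  have hcd : Icc a b ⊆ I := by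
    intro x hx
    apply hball
    rw [Metric.mem_ball, Real.dist_eq, abs_lt]
    constructor <;> linarith [hx.1, hx.2]
  have hfr : Z0 (frontier V) :=
    z0_of_ind hIND hVf (hclC.of_isClosed_subset isClosed_frontier frontier_subset_closure)
      Subset.rfl
  refine ⟨Icc a b ×ˢ closure V, (Ioo a b ×ˢ V)ᶜ, isClosed_Icc.prod isClosed_closure,
    (isOpen_Ioo.prod hVo).isClosed_compl, ?_, ?_, ?_, ?_⟩
  · rw [eq_univ_iff_forall]
    rintro ⟨x, y⟩
    by_cases h : (x, y) ∈ Ioo a b ×ˢ V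
    · exact Or.inl ⟨Ioo_subset_Icc_self h.1, subset_closure h.2⟩
    · exact Or.inr h
  · rintro ⟨x, y⟩ ⟨hx, hy1⟩
    exact hIJ ⟨hcd hx, hKJ (hclK hy1)⟩
  · intro h
    exact h ⟨⟨by simp only; linarith, by simp only; linarith⟩, hvV⟩
  · have heq : (Icc a b ×ˢ closure V) ∩ (Ioo a b ×ˢ V)ᶜ =
        (({a, b} : Set ℝ) ×ˢ closure V) ∪ (Icc a b ×ˢ frontier V) := by
      ext ⟨x, y⟩
      rw [hVo.frontier_eq]
      constructor
      · rintro ⟨⟨hx, hy1⟩, h⟩
        simp only at hx hy1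
        by_cases hyV : y ∈ V
        · left
          refine ⟨?_, hy1⟩
          have hx2 : ¬ x ∈ Ioo a b := fun h3 => h ⟨h3, hyV⟩
          simp only [mem_Ioo, not_and, not_lt] at hx2
          simp only [mem_insert_iff, mem_singleton_iff]
          rcases eq_or_lt_of_le hx.1 with h3 | h3
          · exact Or.inl h3.symm
          · exact Or.inr (le_antisymm hx.2 (hx2 h3))
        · exact Or.inr ⟨hx, hy1, hyV⟩
      · rintro (⟨hx, hy1⟩ | ⟨hx, hy1, hy2⟩)
        · simp only [mem_insert_iff, mem_singleton_iff] at hx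
          rcases hx with hx | hx
          · exact ⟨⟨by simp only [hx]; exact left_mem_Icc.2 hab, hy1⟩,
              fun h => absurd h.1.1 (by simp only [hx]; exact lt_irrefl _)⟩
          · exact ⟨⟨by simp only [hx]; exact right_mem_Icc.2 hab, hy1⟩,
              fun h => absurd h.1.2 (by simp only [hx]; exact lt_irrefl _)⟩
        · exact ⟨⟨hx, hy1⟩, fun h => hy2 h.2⟩
    rw [heq]
    refine Z1.union _ _ (z1_side hIND hY hclC a b) (z1_edge hfr a b) ?_
    refine z0_mono (z0_prod (z0_pair a b) hfr) ?_ ?_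
    · exact (((z0_pair a b).1.isClosed).prod isClosed_closure).inter
        (isClosed_Icc.prod isClosed_frontier)
    · rintro ⟨x, y⟩ ⟨h1, h2⟩
      exact ⟨h1.1, h2.2⟩

end Pool.Agent.Helper96.TR
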